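import Pool.Agent.helper92.RC.Spec

set_option autoImplicit false

namespace Pool.Agent.helper92.RC

open scoped commutatorElement

universe u

theorem GEN_comm (G : Type u) [Group G] [IsFreeGroup G]
    (h : ∀ a b : IsFreeGroup.Generators G, a = b) (x y : G) : x * y = y * x := by
  have h1 : ∀ (a : IsFreeGroup.Generators G) (g : G), IsFreeGroup.of a * g * (IsFreeGroup.of a)⁻¹ = g := by
    intro a g
    have e : (MulAut.conj (IsFreeGroup.of a)).toMonoidHom = MonoidHom.id G := by
      refine IsFreeGroup.ext_hom fun b => ?_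
      rw [h b a]
      simp
    have e2 := DFunLike.congr_fun e g
    simpa using e2
  have h2 : (MulAut.conj x).toMonoidHom = MonoidHom.id G := by
    refine IsFreeGroup.ext_hom fun b => ?_
    have e3 := h1 b x
    have e4 : x * IsFreeGroup.of b * x⁻¹ = IsFreeGroup.of b := by
      rw [mul_inv_eq_iff_eq_mul] at e3 ⊢
      exact e3.symm
    simpa using e4
  have e5 := DFunLike.congr_fun h2 y
  have e6 : x * y * x⁻¹ = y := by simpa using e5
  rwa [mul_inv_eq_iff_eq_mul] at e6

theorem GEN : GEN_stmt.{u} := by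
  classical
  intro F _ _ P hP
  obtain ⟨p, hp, q, hq, hne⟩ := hP
  have hex : ∃ a b : IsFreeGroup.Generators P, a ≠ b := by
    by_contra hcon
    have hcon' : ∀ a b : IsFreeGroup.Generators P, a = b := by
      intro a b
      by_contra hab
      exact hcon ⟨a, b, hab⟩
    have h1 := GEN_comm P hcon' ⟨p, hp⟩ ⟨q, hq⟩
    exact hne (congrArg Subtype.val h1)
  obtain ⟨a, b, hab⟩ := hex
  have hba : b ≠ a := fun h => hab h.symm
  refine ⟨IsFreeGroup.of a, IsFreeGroup.of b,
    IsFreeGroup.lift (fun c => if c = a then Multiplicative.ofAdd 1 else 1),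
    IsFreeGroup.lift (fun c => if c = b then Multiplicative.ofAdd 1 else 1),
    IsFreeGroup.lift (fun c => if c = a then Equiv.swap 0 1 else if c = b then Equiv.swap 1 2 else 1),
    ?_, ?_, ?_, ?_, ?_, ?_⟩
  · rw [IsFreeGroup.lift_of, if_pos rfl]
  · rw [IsFreeGroup.lift_of, if_neg hba]
  · rw [IsFreeGroup.lift_of, if_neg hab]
  · rw [IsFreeGroup.lift_of, if_pos rfl]
  · rw [IsFreeGroup.lift_of, if_pos rfl]
  · rw [IsFreeGroup.lift_of, if_neg hba, if_pos rfl]

end Pool.Agent.helper92.RC
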